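import Pool.Agent.Helper51.REC.Goals1
import Pool.Agent.Helper42.RD.VAL

/-!
# Project REC (MP_fc6b1e_nt): packet K_BAS

The power residue symbol at a prime not above `p`.
-/

set_option autoImplicit false

namespace Pool.Agent.Helper16.REC

open NumberField Module IsDedekindDomain Pool.Agent.Helper51.RP Pool.Agent.Helper42.PP
open Pool.Agent.Helper42.RD (val_eq_one_of_sub val_mul_sub val_inv_sub val_pow_sub ordv_mul ordv_pow
  ordv_inv ordv_zpow ordv_eq_zero_iff exists_int_close val_of_notMem val_div_of_sub_mem)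
open Pool.Agent.Helper51.REC

/-- In a finite cyclic group of order `a b` the elements killed by `a` are `b`-th powers. -/
theorem cyclic_root {G : Type*} [Group G] [Finite G] [IsCyclic G] {a b : ℕ}
    (hab : Nat.card G = a * b) (g : G) (hg : g ^ a = 1) : ∃ h : G, h ^ b = g := by
  obtain ⟨γ, hγ⟩ := IsCyclic.exists_generator (α := G)
  have ha : 0 < a := by
    rcases Nat.eq_zero_or_pos a with h | h
    · rw [h, zero_mul] at hab
      exact absurd hab Nat.card_pos.ne'
    · exact h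
  have hord : orderOf γ = a * b := by
    rw [← hab]
    exact orderOf_eq_card_of_forall_mem_zpowers hγ
  obtain ⟨i, hi⟩ : ∃ i : ℕ, γ ^ i = g := by
    have h1 : g ∈ Submonoid.powers γ := by
      rw [mem_powers_iff_mem_zpowers]
      exact hγ g
    exact h1
  rw [← hi, ← pow_mul] at hg
  have h1 := orderOf_dvd_of_pow_eq_one hg
  rw [hord, mul_comm a b] at h1
  obtain ⟨j, hj⟩ := Nat.dvd_of_mul_dvd_mul_right ha h1
  exact ⟨γ ^ j, by rw [← pow_mul, mul_comm, ← hj, hi]⟩

section integral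

variable {p : ℕ} {F : Type} [Field F] [NumberField F]

/-- The facts in the residue field. -/
theorem tame (hp : p.Prime) {ε : F} (hε : IsPrimitiveRoot ε p) (W : HeightOneSpectrum (𝓞 F))
    (hW : W.valuation F (p : F) = 1) :
    ∃ e : 𝓞 F, algebraMap (𝓞 F) F e = ε ∧ p ∣ Ideal.absNorm W.asIdeal - 1 ∧
      (∀ i < p, ∀ j < p, e ^ i - e ^ j ∈ W.asIdeal → i = j) ∧
      (∀ c ∉ W.asIdeal, ∃ i < p, c ^ ((Ideal.absNorm W.asIdeal - 1) / p) - e ^ i ∈ W.asIdeal) ∧
      (∀ c ∉ W.asIdeal, c ^ ((Ideal.absNorm W.asIdeal - 1) / p) - 1 ∈ W.asIdeal →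
        ∃ d ∉ W.asIdeal, c * d ^ p - 1 ∈ W.asIdeal) ∧
      (∃ v ∉ W.asIdeal, v ^ ((Ideal.absNorm W.asIdeal - 1) / p) - e ∈ W.asIdeal) ∧
      ∀ c ∉ W.asIdeal, c ^ (Ideal.absNorm W.asIdeal - 1) - 1 ∈ W.asIdeal := by
  let _ : Field (𝓞 F ⧸ W.asIdeal) := Ideal.Quotient.field W.asIdeal
  have hfin : Finite (𝓞 F ⧸ W.asIdeal) := inferInstance
  have hcyc : IsCyclic (𝓞 F ⧸ W.asIdeal)ˣ := inferInstance
  have hcard : Nat.card (𝓞 F ⧸ W.asIdeal)ˣ = Ideal.absNorm W.asIdeal - 1 := by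
    rw [Nat.card_units, Ideal.absNorm_apply, Submodule.cardQuot_apply]
  have hmk : ∀ c : 𝓞 F, Ideal.Quotient.mk W.asIdeal c = 0 ↔ c ∈ W.asIdeal := fun c =>
    Ideal.Quotient.eq_zero_iff_mem
  -- `ε` is integral
  have hint : IsIntegral ℤ ε := hε.isIntegral hp.pos
  obtain ⟨e, he⟩ : ∃ e : 𝓞 F, algebraMap (𝓞 F) F e = ε := ⟨⟨ε, hint⟩, rfl⟩
  have hep : IsPrimitiveRoot e p := by
    refine IsPrimitiveRoot.of_map_of_injective (f := algebraMap (𝓞 F) F) ?_
      (FaithfulSMul.algebraMap_injective (𝓞 F) F)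
    have h1 : algebraMap (𝓞 F) F e = ε := he
    rw [h1]
    exact hε
  -- its image is a primitive root of unity
  set eb := Ideal.Quotient.mk W.asIdeal e with heb
  have hebp : eb ^ p = 1 := by
    rw [heb, ← map_pow, hep.pow_eq_one, map_one]
  have hpne : (p : 𝓞 F ⧸ W.asIdeal) ≠ 0 := by
    intro h
    have h1 : (p : 𝓞 F) ∈ W.asIdeal := by
      rw [← hmk, map_natCast]; exact h
    have h2 := (W.valuation_lt_one_iff_mem (K := F) (p : 𝓞 F)).2 h1
    have h3 : algebraMap (𝓞 F) F (p : 𝓞 F) = (p : F) := map_natCast (algebraMap (𝓞 F) F) p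
    have h4 : W.valuation F (p : F) < 1 := by rw [← h3]; exact h2
    rw [hW] at h4
    exact lt_irrefl _ h4
  have hne1 : eb ≠ 1 := by
    intro h
    have h1 : ∑ i ∈ Finset.range p, e ^ i = 0 := hep.geom_sum_eq_zero hp.one_lt
    have h2 := congrArg (Ideal.Quotient.mk W.asIdeal) h1
    rw [map_sum, map_zero] at h2
    simp only [map_pow, ← heb, h, one_pow, Finset.sum_const, Finset.card_range, nsmul_eq_mul,
      mul_one] at h2
    exact hpne h2
  have hebprim : IsPrimitiveRoot eb p := by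
    have : Fact p.Prime := ⟨hp⟩
    rw [← orderOf_eq_prime hebp hne1]
    exact IsPrimitiveRoot.orderOf eb
  have hdvd : p ∣ Ideal.absNorm W.asIdeal - 1 := by
    rw [← hcard]
    have h1 : orderOf (Units.mk0 eb (hebprim.ne_zero hp.ne_zero)) = p := by
      rw [← orderOf_units, Units.val_mk0, hebprim.eq_orderOf]
    rw [← h1]
    exact orderOf_dvd_natCard _
  set m := (Ideal.absNorm W.asIdeal - 1) / p with hm
  have hpm : Ideal.absNorm W.asIdeal - 1 = p * m := (Nat.mul_div_cancel' hdvd).symm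
  have hlift : ∀ u : (𝓞 F ⧸ W.asIdeal)ˣ, ∃ c : 𝓞 F, c ∉ W.asIdeal ∧
      Ideal.Quotient.mk W.asIdeal c = u := by
    intro u
    obtain ⟨c, hc⟩ := Ideal.Quotient.mk_surjective (u : 𝓞 F ⧸ W.asIdeal)
    refine ⟨c, fun h => ?_, hc⟩
    rw [← hmk, hc] at h
    exact u.ne_zero h
  have hunit : ∀ c : 𝓞 F, c ∉ W.asIdeal → ∃ u : (𝓞 F ⧸ W.asIdeal)ˣ,
      Ideal.Quotient.mk W.asIdeal c = u := by
    intro c hc
    have hc0 : Ideal.Quotient.mk W.asIdeal c ≠ 0 := fun h => hc ((hmk c).1 h)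
    exact ⟨Units.mk0 _ hc0, rfl⟩
  have hfer : ∀ u : (𝓞 F ⧸ W.asIdeal)ˣ, u ^ (p * m) = 1 := by
    intro u
    rw [← hpm, ← hcard]
    exact pow_card_eq_one'
  refine ⟨e, he, hdvd, ?_, ?_, ?_, ?_, ?_⟩
  · intro i hi j hj h
    rw [← hmk, map_sub, map_pow, map_pow, sub_eq_zero] at h
    exact hebprim.pow_inj hi hj h
  · intro c hc
    obtain ⟨u, hu⟩ := hunit c hc
    have h1 : ((u : 𝓞 F ⧸ W.asIdeal) ^ m) ^ p = 1 := by
      rw [← pow_mul, mul_comm m p, ← Units.val_pow_eq_pow_val, hfer, Units.val_one]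
    have : NeZero p := ⟨hp.ne_zero⟩
    obtain ⟨i, hi, h2⟩ := hebprim.eq_pow_of_pow_eq_one h1
    refine ⟨i, hi, ?_⟩
    rw [← hmk, map_sub, map_pow, map_pow, hu, sub_eq_zero]
    exact h2.symm
  · intro c hc h
    obtain ⟨u, hu⟩ := hunit c hc
    rw [← hmk, map_sub, map_pow, map_one, hu, sub_eq_zero] at h
    have h1 : u ^ m = 1 := Units.ext (by rw [Units.val_pow_eq_pow_val, h, Units.val_one])
    obtain ⟨r, hr⟩ := cyclic_root (a := m) (b := p) (by rw [hcard, hpm, mul_comm]) u h1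
    obtain ⟨d, hd, hdr⟩ := hlift r⁻¹
    refine ⟨d, hd, ?_⟩
    rw [← hmk, map_sub, map_mul, map_pow, map_one, hu, hdr, ← hr, ← Units.val_pow_eq_pow_val,
      ← Units.val_mul, inv_pow, mul_inv_cancel, Units.val_one, sub_self]
  · have h1 : (Units.mk0 eb (hebprim.ne_zero hp.ne_zero)) ^ p = 1 := Units.ext (by
      rw [Units.val_pow_eq_pow_val, Units.val_mk0, hebp, Units.val_one])
    obtain ⟨r, hr⟩ := cyclic_root (a := p) (b := m) (by rw [hcard, hpm]) _ h1
    obtain ⟨v, hv, hvr⟩ := hlift r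
    refine ⟨v, hv, ?_⟩
    rw [← hmk, map_sub, map_pow, hvr, ← Units.val_pow_eq_pow_val, hr, Units.val_mk0, sub_self]
  · intro c hc
    obtain ⟨u, hu⟩ := hunit c hc
    rw [← hmk, map_sub, map_pow, map_one, hu, hpm, ← Units.val_pow_eq_pow_val, hfer,
      Units.val_one, sub_self]

end integral

section field

variable {p : ℕ} {F : Type} [Field F] [NumberField F] (W : HeightOneSpectrum (𝓞 F))

theorem sub_lt_iff {z z' : F} (hz' : W.valuation F z' = 1) :
    W.valuation F (z - z') < 1 ↔ W.valuation F (z / z' - 1) < 1 := by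
  have h0 : z' ≠ 0 := by rintro rfl; rw [map_zero] at hz'; exact zero_ne_one hz'
  have e : z / z' - 1 = (z - z') / z' := by field_simp
  rw [e, map_div₀, hz', div_one]

theorem val_div_sub {x y : F} (hx : W.valuation F (x - 1) < 1) (hy : W.valuation F (y - 1) < 1) :
    W.valuation F (x / y - 1) < 1 := by
  rw [div_eq_mul_inv]
  exact val_mul_sub W hx (val_inv_sub W hy)

/-- The facts for units at `W` in the field. -/
theorem tameF (hp : p.Prime) {ε : F} (hε : IsPrimitiveRoot ε p)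
    (hW : W.valuation F (p : F) = 1) :
    p ∣ Ideal.absNorm W.asIdeal - 1 ∧ W.valuation F ε = 1 ∧
      (∀ i < p, ∀ j < p, W.valuation F (ε ^ i - ε ^ j) < 1 → i = j) ∧
      (∀ z : F, W.valuation F z = 1 →
        ∃ i < p, W.valuation F (z ^ ((Ideal.absNorm W.asIdeal - 1) / p) - ε ^ i) < 1) ∧
      (∀ z : F, W.valuation F z = 1 →
        W.valuation F (z ^ ((Ideal.absNorm W.asIdeal - 1) / p) - 1) < 1 →
        ∃ d : F, W.valuation F (z * d ^ p - 1) < 1) ∧
      (∃ v : F, W.valuation F v = 1 ∧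
        W.valuation F (v ^ ((Ideal.absNorm W.asIdeal - 1) / p) - ε) < 1) ∧
      ∀ z : F, W.valuation F z = 1 →
        W.valuation F (z ^ (Ideal.absNorm W.asIdeal - 1) - 1) < 1 := by
  obtain ⟨e, he, h1, h2, h3, h4, h5, h6⟩ := tame hp hε W hW
  set m := (Ideal.absNorm W.asIdeal - 1) / p with hm
  have hεv : W.valuation F ε = 1 := by
    have h7 : W.valuation F ε ^ p = 1 := by
      rw [← map_pow, hε.pow_eq_one, map_one]
    exact (pow_eq_one_iff_of_nonneg zero_le hp.ne_zero).1 h7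
  have hmem : ∀ c : 𝓞 F, c ∈ W.asIdeal → W.valuation F (algebraMap (𝓞 F) F c) < 1 := fun c hc =>
    (W.valuation_lt_one_iff_mem (K := F) c).2 hc
  have hmem' : ∀ c : 𝓞 F, W.valuation F (algebraMap (𝓞 F) F c) < 1 → c ∈ W.asIdeal := fun c hc =>
    (W.valuation_lt_one_iff_mem (K := F) c).1 hc
  have hclose : ∀ z : F, W.valuation F z = 1 → ∃ c : 𝓞 F, c ∉ W.asIdeal ∧
      algebraMap (𝓞 F) F c ≠ 0 ∧ z ≠ 0 ∧ W.valuation F (algebraMap (𝓞 F) F c / z - 1) < 1 := by
    intro z hz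
    obtain ⟨c, hc, hcz⟩ := exists_int_close W hz
    refine ⟨c, hc, ?_, ?_, hcz⟩
    · intro h
      have h7 : W.valuation F (algebraMap (𝓞 F) F c) = 1 := val_of_notMem W hc
      rw [h, map_zero] at h7
      exact zero_ne_one h7
    · rintro rfl
      rw [map_zero] at hz
      exact zero_ne_one hz
  refine ⟨h1, hεv, ?_, ?_, ?_, ?_, ?_⟩
  · intro i hi j hj h
    apply h2 i hi j hj
    apply hmem'
    rw [map_sub, map_pow, map_pow, he]
    exact h
  · intro z hz
    obtain ⟨c, hc, hc0, hz0, hcz⟩ := hclose z hz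
    obtain ⟨i, hi, hci⟩ := h3 c hc
    refine ⟨i, hi, ?_⟩
    have hεi : W.valuation F (ε ^ i) = 1 := by rw [map_pow, hεv, one_pow]
    have h7 := hmem _ hci
    rw [map_sub, map_pow, map_pow, he] at h7
    rw [sub_lt_iff W hεi] at h7 ⊢
    have hε0 : ε ≠ 0 := hε.ne_zero hp.ne_zero
    have e1 : z ^ m / ε ^ i = ((algebraMap (𝓞 F) F c) ^ m / ε ^ i) /
        ((algebraMap (𝓞 F) F c) / z) ^ m := by
      rw [div_pow]
      field_simp
    rw [e1]
    exact val_div_sub W h7 (val_pow_sub W hcz m)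
  · intro z hz h
    obtain ⟨c, hc, hc0, hz0, hcz⟩ := hclose z hz
    obtain ⟨d, hd, hcd⟩ := h4 c hc (by
      apply hmem'
      rw [map_sub, map_pow, map_one]
      have e1 : (algebraMap (𝓞 F) F c) ^ m = ((algebraMap (𝓞 F) F c) / z) ^ m * z ^ m := by
        rw [← mul_pow, div_mul_cancel₀ _ hz0]
      rw [e1]
      exact val_mul_sub W (val_pow_sub W hcz m) h)
    refine ⟨algebraMap (𝓞 F) F d, ?_⟩
    have h7 := hmem _ hcd
    rw [map_sub, map_mul, map_pow, map_one] at h7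
    have e1 : z * (algebraMap (𝓞 F) F d) ^ p =
        ((algebraMap (𝓞 F) F c) * (algebraMap (𝓞 F) F d) ^ p) / ((algebraMap (𝓞 F) F c) / z) := by
      field_simp
    rw [e1]
    exact val_div_sub W h7 hcz
  · obtain ⟨v, hv, hve⟩ := h5
    refine ⟨algebraMap (𝓞 F) F v, val_of_notMem W hv, ?_⟩
    have h7 := hmem _ hve
    rw [map_sub, map_pow, he] at h7
    exact h7
  · intro z hz
    obtain ⟨c, hc, hc0, hz0, hcz⟩ := hclose z hz
    have h7 := hmem _ (h6 c hc)
    rw [map_sub, map_pow, map_one] at h7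
    have e1 : z ^ (Ideal.absNorm W.asIdeal - 1) =
        (algebraMap (𝓞 F) F c) ^ (Ideal.absNorm W.asIdeal - 1) /
          ((algebraMap (𝓞 F) F c) / z) ^ (Ideal.absNorm W.asIdeal - 1) := by
      rw [div_pow]
      field_simp
    rw [e1]
    exact val_div_sub W h7 (val_pow_sub W hcz _)

end field

/-- There are elements of every valuation. -/
theorem exists_ordv {F : Type} [Field F] [NumberField F] (W : HeightOneSpectrum (𝓞 F)) (n : ℤ) :
    ∃ y : Fˣ, ordv W (y : F) = n := by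
  obtain ⟨π, hπ⟩ := W.valuation_exists_uniformizer F
  have hπ' : ordv W π = 1 := by unfold ordv; rw [hπ]; simp
  have h0 : π ≠ 0 := by
    rintro rfl
    unfold ordv at hπ'
    rw [map_zero, WithZero.log_zero] at hπ'
    norm_num at hπ'
  refine ⟨Units.mk0 π h0 ^ n, ?_⟩
  rw [Units.val_zpow_eq_zpow_val, Units.val_mk0, ordv_zpow W h0, hπ', mul_one]

theorem pow_val_add {p : ℕ} [Fact p.Prime] {F : Type} [Field F] {ε : F}
    (hε : IsPrimitiveRoot ε p) (a b : ZMod p) :
    ε ^ (a + b).val = ε ^ a.val * ε ^ b.val := by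
  rw [ZMod.val_add, ← pow_add]
  have h3 := pow_mod_orderOf ε (a.val + b.val)
  rwa [← hε.eq_orderOf] at h3

/-- **K_BAS.** -/
theorem k_bas : K_BAS := by
  intro p hpf F _ _ ε hε W hW
  have hp : p.Prime := hpf.out
  obtain ⟨h1, hεv, h2, h3, h4, ⟨v, hv, hvε⟩, h6⟩ := tameF W hp hε hW
  set m := (Ideal.absNorm W.asIdeal - 1) / p with hm
  have hpm : Ideal.absNorm W.asIdeal - 1 = p * m := (Nat.mul_div_cancel' h1).symm
  have hεi : ∀ i : ℕ, W.valuation F (ε ^ i) = 1 := fun i => by rw [map_pow, hεv, one_pow]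
  have hdiv : ∀ (x y : Fˣ), W.valuation F ((x : F) * (y : F) ^ p) = 1 →
      (p : ℤ) ∣ ordv W (x : F) := by
    intro x y h
    rw [← ordv_eq_zero_iff W (mul_ne_zero x.ne_zero (pow_ne_zero p y.ne_zero)),
      ordv_mul W x.ne_zero (pow_ne_zero p y.ne_zero), ordv_pow] at h
    exact ⟨- ordv W (y : F), by linarith⟩
  -- uniqueness
  have huniq : ∀ (x : Fˣ) (a b : ZMod p), IsKap p ε W x a → IsKap p ε W x b → a = b := by
    rintro x a b ⟨y, hy, hya⟩ ⟨y', hy', hyb⟩
    rw [sub_lt_iff W (hεi _)] at hya hyb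
    have hq : W.valuation F ((y : F) / (y' : F)) = 1 := by
      have h7 : W.valuation F ((y : F) / (y' : F)) ^ p = 1 := by
        have e1 : ((y : F) / (y' : F)) ^ p = ((x : F) * (y : F) ^ p) / ((x : F) * (y' : F) ^ p) := by
          have := x.ne_zero
          have := y'.ne_zero
          rw [div_pow]
          field_simp
        rw [← map_pow, e1, map_div₀, hy, hy', div_one]
      exact (pow_eq_one_iff_of_nonneg zero_le hp.ne_zero).1 h7
    have h7 := h6 _ hq
    have h8 : W.valuation F (ε ^ b.val / ε ^ a.val - 1) < 1 := by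
      have e1 : ε ^ b.val / ε ^ a.val = ((((x : F) * (y : F) ^ p) ^ m / ε ^ a.val) /
          (((x : F) * (y' : F) ^ p) ^ m / ε ^ b.val)) /
          ((y : F) / (y' : F)) ^ (Ideal.absNorm W.asIdeal - 1) := by
        have := x.ne_zero
        have := y'.ne_zero
        have := y.ne_zero
        have := hε.ne_zero hp.ne_zero
        rw [hpm, pow_mul, mul_pow, mul_pow, div_pow, div_pow]
        field_simp
      rw [e1]
      exact val_div_sub W (val_div_sub W hya hyb) h7
    rw [← sub_lt_iff W (hεi _)] at h8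
    have h9 := h2 _ (ZMod.val_lt b) _ (ZMod.val_lt a) h8
    exact (ZMod.val_injective p h9).symm
  -- existence
  have hex : ∀ x : Fˣ, (p : ℤ) ∣ ordv W (x : F) → ∃ a, IsKap p ε W x a := by
    rintro x ⟨n, hn⟩
    obtain ⟨y, hy⟩ := exists_ordv W (-n)
    have hz : W.valuation F ((x : F) * (y : F) ^ p) = 1 := by
      rw [← ordv_eq_zero_iff W (mul_ne_zero x.ne_zero (pow_ne_zero p y.ne_zero)),
        ordv_mul W x.ne_zero (pow_ne_zero p y.ne_zero), ordv_pow, hn, hy]
      ring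
    obtain ⟨i, hi, hzi⟩ := h3 _ hz
    refine ⟨(i : ZMod p), y, hz, ?_⟩
    rw [ZMod.val_natCast_of_lt hi]
    exact hzi
  have hspec : ∀ x : Fˣ, (p : ℤ) ∣ ordv W (x : F) → IsKap p ε W x (kap p ε W x) := by
    intro x hx
    have h := hex x hx
    unfold kap
    rw [dif_pos h]
    exact h.choose_spec
  have hiff : ∀ x : Fˣ, (p : ℤ) ∣ ordv W (x : F) → ∀ a, IsKap p ε W x a ↔ a = kap p ε W x := by
    intro x hx a
    constructor
    · intro h
      exact huniq x a _ h (hspec x hx)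
    · rintro rfl
      exact hspec x hx
  have hval0 : (0 : ZMod p).val = 0 := ZMod.val_zero
  refine ⟨h1, ?_, hiff, ?_, ?_, ?_, ?_⟩
  · intro x hx
    unfold kap
    rw [dif_neg]
    rintro ⟨a, y, hy, -⟩
    exact hx (hdiv x y hy)
  · intro x x' hx hx'
    have hxx : (p : ℤ) ∣ ordv W ((x * x' : Fˣ) : F) := by
      rw [Units.val_mul, ordv_mul W x.ne_zero x'.ne_zero]
      exact dvd_add hx hx'
    symm
    rw [← hiff _ hxx]
    obtain ⟨y, hy, hya⟩ := hspec x hx
    obtain ⟨y', hy', hyb⟩ := hspec x' hx'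
    refine ⟨y * y', ?_, ?_⟩
    · have e1 : ((x * x' : Fˣ) : F) * ((y * y' : Fˣ) : F) ^ p =
          ((x : F) * (y : F) ^ p) * ((x' : F) * (y' : F) ^ p) := by
        rw [Units.val_mul, Units.val_mul]; ring
      rw [e1, map_mul, hy, hy', one_mul]
    · rw [sub_lt_iff W (hεi _)] at hya hyb ⊢
      have e1 : (((x * x' : Fˣ) : F) * ((y * y' : Fˣ) : F) ^ p) ^ m /
          ε ^ (kap p ε W x + kap p ε W x').val =
          (((x : F) * (y : F) ^ p) ^ m / ε ^ (kap p ε W x).val) *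
          (((x' : F) * (y' : F) ^ p) ^ m / ε ^ (kap p ε W x').val) := by
        rw [pow_val_add hε, Units.val_mul, Units.val_mul, div_mul_div_comm]
        congr 1
        ring
      rw [← hm, e1]
      exact val_mul_sub W hya hyb
  · intro y
    have hd : (p : ℤ) ∣ ordv W ((y ^ p : Fˣ) : F) := by
      rw [Units.val_pow_eq_pow_val, ordv_pow]
      exact Dvd.intro _ rfl
    symm
    rw [← hiff _ hd]
    have e1 : ((y ^ p : Fˣ) : F) * ((y⁻¹ : Fˣ) : F) ^ p = 1 := by
      rw [Units.val_pow_eq_pow_val, ← mul_pow, ← Units.val_mul, mul_inv_cancel, Units.val_one,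
        one_pow]
    refine ⟨y⁻¹, ?_, ?_⟩
    · rw [e1, map_one]
    · rw [e1, hval0, one_pow, pow_zero, sub_self, map_zero]
      exact zero_lt_one
  · intro x hx
    constructor
    · intro h
      obtain ⟨y, hy, hya⟩ := hspec x hx
      rw [h, hval0, pow_zero] at hya
      obtain ⟨d, hd⟩ := h4 _ hy hya
      refine ⟨(y : F) * d, ?_⟩
      have e1 : (x : F) * ((y : F) * d) ^ p = (x : F) * (y : F) ^ p * d ^ p := by ring
      rw [e1]
      exact hd
    · rintro ⟨d, hd⟩
      have hd0 : d ≠ 0 := by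
        rintro rfl
        rw [zero_pow hp.ne_zero, mul_zero, zero_sub, Valuation.map_neg, map_one] at hd
        exact lt_irrefl _ hd
      symm
      rw [← hiff x hx]
      refine ⟨Units.mk0 d hd0, val_eq_one_of_sub W hd, ?_⟩
      rw [hval0, pow_zero]
      exact val_pow_sub W hd _
  · intro a
    have hv0 : v ≠ 0 := by rintro rfl; rw [map_zero] at hv; exact zero_ne_one hv
    have hva : W.valuation F ((Units.mk0 v hv0 ^ a.val : Fˣ) : F) = 1 := by
      rw [Units.val_pow_eq_pow_val, Units.val_mk0, map_pow, hv, one_pow]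
    have hva' : ordv W ((Units.mk0 v hv0 ^ a.val : Fˣ) : F) = 0 :=
      (ordv_eq_zero_iff W (Units.ne_zero _)).2 hva
    refine ⟨Units.mk0 v hv0 ^ a.val, hva, ?_⟩
    symm
    rw [← hiff _ (by rw [hva']; exact dvd_zero _)]
    refine ⟨1, ?_, ?_⟩
    · rw [Units.val_one, one_pow, mul_one]
      exact hva
    · rw [sub_lt_iff W (hεi _)]
      rw [sub_lt_iff W hεv] at hvε
      have e1 : (((Units.mk0 v hv0 ^ a.val : Fˣ) : F) * ((1 : Fˣ) : F) ^ p) ^ m / ε ^ a.val =
          (v ^ m / ε) ^ a.val := by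
        rw [Units.val_one, one_pow, mul_one, Units.val_pow_eq_pow_val, Units.val_mk0, div_pow,
          ← pow_mul, ← pow_mul, mul_comm]
      rw [← hm, e1]
      exact val_pow_sub W hvε _

end Pool.Agent.Helper16.REC
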